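import Pool.Agent.Q19.StabC

set_option autoImplicit false
set_option linter.unusedVariables false

open Classical

namespace Pool.Agent.Results.MP_4d8c35_co.ThreeStableBounded

/-- `G` is `(k, ℓ)`-stable: deleting any `k` vertices lowers the independence number by at most
`ℓ`. The graph `G - S` is the subgraph induced on the complement of `S`. -/
def Stable (k l : ℕ) {V : Type*} (G : SimpleGraph V) : Prop :=
  ∀ S : Finset V, S.card = k → G.indepNum ≤ (G.induce {v | v ∉ S}).indepNum + l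

/-- an explicit function -/
def bound (δ : ℕ) : ℕ :=
  2 * (2 ^ (δ + 1) + 2 ^ (2 ^ (δ + 1)) * (δ + 1) ^ (2 ^ (2 ^ (δ + 1))))

open Pool.Agent.Q19.Stab

lemma ind_iff {V : Type*} {G : SimpleGraph V} {S : Finset V} : Ind G S ↔ G.IsIndepSet S := by
  constructor
  · intro h x hx y hy _ hxy
    exact h x hx y hy hxy
  · intro h x hx y hy hxy
    exact h hx hy hxy.ne hxy

lemma exists_ctx {V : Type*} [Fintype V] {G : SimpleGraph V} (hG : Stable 3 0 G)
    (hV : 3 ≤ Fintype.card V) : ∃ H : SimpleGraph V, Ctx H G.indepNum := by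
  -- a minimal subgraph with the same independence number
  have hfin : {H : SimpleGraph V | H ≤ G ∧ ∀ S : Finset V, Ind H S → S.card ≤ G.indepNum}.Finite :=
    Set.toFinite _
  have hG0 : G ∈ {H : SimpleGraph V | H ≤ G ∧
      ∀ S : Finset V, Ind H S → S.card ≤ G.indepNum} := by
    refine ⟨le_rfl, fun S hS => ?_⟩
    exact (ind_iff.1 hS).card_le_indepNum
  obtain ⟨H, hHG, hH, hmin⟩ := hfin.exists_le_minimal hG0
  refine ⟨H, hH.2, ?_, ?_⟩
  · intro S hS
    obtain ⟨T, hST, hT⟩ : ∃ T : Finset V, S ⊆ T ∧ T.card = 3 := by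
      obtain ⟨T, h1, h2⟩ := Finset.exists_superset_card_eq hS hV
      exact ⟨T, h1, h2⟩
    have h1 := hG T hT
    obtain ⟨J, hJ⟩ := (G.induce {v | v ∉ T}).exists_isNIndepSet_indepNum
    obtain ⟨hJ1, hJ2⟩ := hJ
    have h2 : (J.map (Function.Embedding.subtype _)).card = J.card := Finset.card_map _
    obtain ⟨I, hIJ, hI⟩ := Finset.exists_subset_card_eq
      (s := J.map (Function.Embedding.subtype _)) (n := G.indepNum) (by rw [h2, hJ2]; omega)
    refine ⟨I, ?_, hI, ?_⟩
    · intro x hx y hy hxy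
      obtain ⟨x', hx', rfl⟩ := Finset.mem_map.1 (hIJ hx)
      obtain ⟨y', hy', rfl⟩ := Finset.mem_map.1 (hIJ hy)
      have h3 : G.Adj x'.1 y'.1 := hHG hxy
      exact hJ1 hx' hy' (fun h4 => h3.ne (congrArg Subtype.val h4)) h3
    · rw [Finset.disjoint_left]
      intro x hx hxS
      obtain ⟨x', hx', rfl⟩ := Finset.mem_map.1 (hIJ hx)
      exact x'.2 (hST hxS)
  · intro a b hab
    have hlt : H.deleteEdges {s(a, b)} < H := by
      refine lt_of_le_of_ne (SimpleGraph.deleteEdges_le _) ?_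
      intro h1
      have h2 : (H.deleteEdges {s(a, b)}).Adj a b := h1.symm ▸ hab
      rw [SimpleGraph.deleteEdges_adj] at h2
      exact h2.2 rfl
    have h1 : ¬ (H.deleteEdges {s(a, b)} ≤ G ∧
        ∀ S : Finset V, Ind (H.deleteEdges {s(a, b)}) S → S.card ≤ G.indepNum) := by
      intro h2
      exact absurd (hmin h2 hlt.le) (not_le_of_gt hlt)
    rw [not_and] at h1
    have h2 := h1 (hlt.le.trans hHG)
    push Not at h2
    obtain ⟨S, hS, hS'⟩ := h2
    obtain ⟨S', hSS, hS'c⟩ := Finset.exists_subset_card_eq (s := S) (n := G.indepNum + 1) hS'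
    have key : ∀ x ∈ S', ∀ y ∈ S', H.Adj x y → (x = a ∧ y = b) ∨ (x = b ∧ y = a) := by
      intro x hx y hy hxy
      by_contra h3
      apply hS x (hSS hx) y (hSS hy)
      rw [SimpleGraph.deleteEdges_adj]
      refine ⟨hxy, fun h4 => h3 ?_⟩
      rw [Set.mem_singleton_iff, Sym2.eq_iff] at h4
      exact h4
    have ha : a ∈ S' := by
      by_contra h3
      have h4 : Ind H S' := by
        intro x hx y hy hxy
        rcases key x hx y hy hxy with ⟨e, _⟩ | ⟨_, e⟩
        · exact h3 (e ▸ hx)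
        · exact h3 (e ▸ hy)
      have := hH.2 _ h4
      omega
    have hb : b ∈ S' := by
      by_contra h3
      have h4 : Ind H S' := by
        intro x hx y hy hxy
        rcases key x hx y hy hxy with ⟨_, e⟩ | ⟨e, _⟩
        · exact h3 (e ▸ hy)
        · exact h3 (e ▸ hx)
      have := hH.2 _ h4
      omega
    exact ⟨S', ha, hb, hS'c, key⟩

lemma main {V : Type*} [Fintype V] {G : SimpleGraph V} (hG : Stable 3 0 G) :
    Fintype.card V ≤ bound (Fintype.card V - 2 * G.indepNum) := by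
  by_cases hV : 3 ≤ Fintype.card V
  · obtain ⟨H, hH⟩ := exists_ctx hG hV
    exact card_bound hH
  · have h1 : bound 0 ≤ bound (Fintype.card V - 2 * G.indepNum) := bd_mono (Nat.zero_le _)
    have h2 : 2 ≤ bound 0 := by
      unfold bound
      norm_num
    omega

/-- There are no `c > 0` and `(3, 0)`-stable graphs with `n → ∞` vertices and independence number
at least `n / 2 - c`. In fact every `(3, 0)`-stable graph with `n` vertices and independence number
`α` has `n ≤ bound (n - 2 α)`. -/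
theorem result :
    (¬ ∃ c : ℝ, 0 < c ∧ ∃ (n : ℕ → ℕ) (G : ∀ i, SimpleGraph (Fin (n i))),
      Filter.Tendsto n Filter.atTop Filter.atTop ∧
      ∀ i, Stable 3 0 (G i) ∧ (n i : ℝ) / 2 - c ≤ (G i).indepNum) ∧
    (∀ (V : Type) [Fintype V] (G : SimpleGraph V), Stable 3 0 G →
      Fintype.card V ≤ bound (Fintype.card V - 2 * G.indepNum)) ∧
    ∀ c : ℝ, ∃ N : ℕ, ∀ (V : Type) [Fintype V] (G : SimpleGraph V), Stable 3 0 G →
      (Fintype.card V : ℝ) / 2 - c ≤ G.indepNum → Fintype.card V ≤ N := by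
  have key : ∀ c : ℝ, ∃ N : ℕ, ∀ (V : Type) [Fintype V] (G : SimpleGraph V), Stable 3 0 G →
      (Fintype.card V : ℝ) / 2 - c ≤ G.indepNum → Fintype.card V ≤ N := by
    intro c
    refine ⟨bound ⌈2 * c⌉₊, fun V _ G hG hc => (main hG).trans (bd_mono ?_)⟩
    rw [Nat.sub_le_iff_le_add]
    have h1 : (Fintype.card V : ℝ) ≤ ((⌈2 * c⌉₊ + 2 * G.indepNum : ℕ) : ℝ) := by
      push_cast
      have h2 := Nat.le_ceil (2 * c)
      linarith
    exact_mod_cast h1
  refine ⟨?_, fun V _ G hG => main hG, key⟩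
  rintro ⟨c, -, n, G, hn, hG⟩
  obtain ⟨N, hN⟩ := key c
  obtain ⟨i, hi⟩ := (hn.eventually_gt_atTop N).exists
  have h1 := hN (Fin (n i)) (G i) (hG i).1 (by rw [Fintype.card_fin]; exact (hG i).2)
  rw [Fintype.card_fin] at h1
  omega

end Pool.Agent.Results.MP_4d8c35_co.ThreeStableBounded
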